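import Pool.Agent.Run7.h692.Van3

set_option autoImplicit false
open scoped TensorProduct
open CategoryTheory MulOpposite Pool.Agent.Helper426Tach Pool.Agent.Helper426GSC Run7.h692

namespace Pool.Agent.Results.MP_5dc868_al.FinitePdId

/-- The Gorenstein bimodule conjecture for the algebra `A`: the algebra `A` is selfinjective iff
it is Gorenstein projective as a bimodule. (This is the body of the frozen statement of the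
problem.) -/
def BimoduleConjectureFor (k A : Type) [Field k] [Ring A] [Algebra k A] : Prop :=
  ∀ [Module (A ⊗[k] Aᵐᵒᵖ) A],
    (∀ (a : A) (b : Aᵐᵒᵖ) (x : A), (a ⊗ₜ[k] b) • x = a * x * MulOpposite.unop b) →
    ∀ [HasExt.{1} (ModuleCat.{0} (A ⊗[k] Aᵐᵒᵖ))]
      [HasExt.{1} (ModuleCat.{0} ((A ⊗[k] Aᵐᵒᵖ)ᵐᵒᵖ))],
    (Module.Injective A A ↔
      ((∀ m : A, (∀ f : A →ₗ[A ⊗[k] Aᵐᵒᵖ] (A ⊗[k] Aᵐᵒᵖ), f m = 0) → m = 0) ∧
       (∀ φ : (A →ₗ[A ⊗[k] Aᵐᵒᵖ] (A ⊗[k] Aᵐᵒᵖ)) →ₗ[((A ⊗[k] Aᵐᵒᵖ)ᵐᵒᵖ)] (A ⊗[k] Aᵐᵒᵖ),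
          ∃ m : A, ∀ f : A →ₗ[A ⊗[k] Aᵐᵒᵖ] (A ⊗[k] Aᵐᵒᵖ), φ f = f m) ∧
       (∀ i : ℕ, 1 ≤ i →
          Subsingleton (Abelian.Ext.{1} (ModuleCat.of (A ⊗[k] Aᵐᵒᵖ) A)
            (ModuleCat.of (A ⊗[k] Aᵐᵒᵖ) (A ⊗[k] Aᵐᵒᵖ)) i)) ∧
       (∀ i : ℕ, 1 ≤ i →
          Subsingleton (Abelian.Ext.{1}
            (ModuleCat.of ((A ⊗[k] Aᵐᵒᵖ)ᵐᵒᵖ) (A →ₗ[A ⊗[k] Aᵐᵒᵖ] (A ⊗[k] Aᵐᵒᵖ)))
            (ModuleCat.of ((A ⊗[k] Aᵐᵒᵖ)ᵐᵒᵖ) (A ⊗[k] Aᵐᵒᵖ)) i))))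

/-- Some `Ext^i` of the bimodule `A` with coefficients in the enveloping algebra, `i ≥ 1`, is
nonzero. -/
def SomeExtNonzero (k A : Type) [Field k] [Ring A] [Algebra k A] : Prop :=
  ∀ [Module (A ⊗[k] Aᵐᵒᵖ) A],
    (∀ (a : A) (b : Aᵐᵒᵖ) (x : A), (a ⊗ₜ[k] b) • x = a * x * MulOpposite.unop b) →
    ∀ [HasExt.{1} (ModuleCat.{0} (A ⊗[k] Aᵐᵒᵖ))], ∃ i : ℕ, 1 ≤ i ∧
      ¬ Subsingleton (Abelian.Ext.{1} (ModuleCat.of (A ⊗[k] Aᵐᵒᵖ) A)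
            (ModuleCat.of (A ⊗[k] Aᵐᵒᵖ) (A ⊗[k] Aᵐᵒᵖ)) i)

theorem someExt (k A : Type) [Field k] [Ring A] [Algebra k A] [FiniteDimensional k A]
    (X : Type) [AddCommGroup X] [Module A X] [Module.Finite A X]
    (hX : ¬ Module.Projective A X) (n m : ℕ)
    (hpd : HasProjectiveDimensionLE (ModuleCat.of A X) n)
    (hid : HasInjectiveDimensionLE (ModuleCat.of A X) m) [Module (A ⊗[k] Aᵐᵒᵖ) A]
    (hc : ∀ (a : A) (b : Aᵐᵒᵖ) (x : A), (a ⊗ₜ[k] b) • x = a * x * MulOpposite.unop b)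
    [HasExt.{1} (ModuleCat.{0} (A ⊗[k] Aᵐᵒᵖ))] : ∃ i : ℕ, 1 ≤ i ∧
      ¬ Subsingleton (Abelian.Ext.{1} (ModuleCat.of (A ⊗[k] Aᵐᵒᵖ) A)
            (ModuleCat.of (A ⊗[k] Aᵐᵒᵖ) (A ⊗[k] Aᵐᵒᵖ)) i) := by
  by_contra hne
  apply hX
  refine projective_of_van (K := k) hc ?_ X n m hpd hid
  intro i
  have h1 : Subsingleton (Abelian.Ext.{1} (ModuleCat.of (A ⊗[k] Aᵐᵒᵖ) A)
            (ModuleCat.of (A ⊗[k] Aᵐᵒᵖ) (A ⊗[k] Aᵐᵒᵖ)) (i + 1)) := by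
    by_contra h2
    exact hne ⟨i + 1, by omega, h2⟩
  exact (Abelian.Ext.chgUniv.{0, 1} (X := ModuleCat.of (A ⊗[k] Aᵐᵒᵖ) A)
    (Y := ModuleCat.of (A ⊗[k] Aᵐᵒᵖ) (A ⊗[k] Aᵐᵒᵖ)) (n := i + 1)).symm.subsingleton

/-- If a finite-dimensional algebra has a finitely generated nonprojective module of finite
projective dimension and finite injective dimension, then it is not selfinjective, some
`Ext^i(A, A^e)` is nonzero, and so the Gorenstein bimodule conjecture holds for it. -/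
theorem result (k A : Type) [Field k] [Ring A] [Algebra k A] [FiniteDimensional k A]
    (X : Type) [AddCommGroup X] [Module A X] [Module.Finite A X]
    (hX : ¬ Module.Projective A X) (n m : ℕ)
    (hpd : HasProjectiveDimensionLE (ModuleCat.of A X) n)
    (hid : HasInjectiveDimensionLE (ModuleCat.of A X) m) :
    BimoduleConjectureFor k A ∧ SomeExtNonzero k A := by
  refine ⟨?_, ?_⟩
  · intro _ hc _ _
    constructor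
    · intro hA
      exact absurd (proj_of_selfinj k hA n X hpd) hX
    · rintro ⟨-, -, h3, -⟩
      obtain ⟨i, hi, hne⟩ := someExt k A X hX n m hpd hid hc
      exact absurd (h3 i hi) hne
  · intro _ hc _
    exact someExt k A X hX n m hpd hid hc

end Pool.Agent.Results.MP_5dc868_al.FinitePdId
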