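import Pool.Agent.Run7.h692.Eq.Fin1

set_option autoImplicit false
open scoped TensorProduct
open CategoryTheory MulOpposite Run7.h692 Run7.h692.Eq

namespace Pool.Agent.Results.MP_5dc868_al.NakayamaEquivalent

/-- `Ext^i(X, Y) = 0` for all `i ≥ 1`, over the ring `A`. -/
def ExtVanish (A X Y : Type) [Ring A] [AddCommGroup X] [Module A X] [AddCommGroup Y]
    [Module A Y] : Prop :=
  ∀ i : ℕ, 1 ≤ i → Subsingleton (Abelian.Ext.{0} (ModuleCat.of A X) (ModuleCat.of A Y) i)

/-- The Gorenstein bimodule conjecture for the algebra `A`: the algebra `A` is selfinjective iff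
it is Gorenstein projective as a bimodule. (This is the body of the frozen statement of the
problem, for one algebra.) -/
def BimoduleConjectureFor (k A : Type) [Field k] [Ring A] [Algebra k A] : Prop :=
  ∀ [Module (A ⊗[k] Aᵐᵒᵖ) A],
    (∀ (a : A) (b : Aᵐᵒᵖ) (x : A), (a ⊗ₜ[k] b) • x = a * x * MulOpposite.unop b) →
    ∀ [HasExt.{1} (ModuleCat.{0} (A ⊗[k] Aᵐᵒᵖ))]
      [HasExt.{1} (ModuleCat.{0} ((A ⊗[k] Aᵐᵒᵖ)ᵐᵒᵖ))],
    (Module.Injective A A ↔
      ((∀ m : A, (∀ f : A →ₗ[A ⊗[k] Aᵐᵒᵖ] (A ⊗[k] Aᵐᵒᵖ), f m = 0) → m = 0) ∧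
       (∀ φ : (A →ₗ[A ⊗[k] Aᵐᵒᵖ] (A ⊗[k] Aᵐᵒᵖ)) →ₗ[((A ⊗[k] Aᵐᵒᵖ)ᵐᵒᵖ)] (A ⊗[k] Aᵐᵒᵖ),
          ∃ m : A, ∀ f : A →ₗ[A ⊗[k] Aᵐᵒᵖ] (A ⊗[k] Aᵐᵒᵖ), φ f = f m) ∧
       (∀ i : ℕ, 1 ≤ i →
          Subsingleton (Abelian.Ext.{1} (ModuleCat.of (A ⊗[k] Aᵐᵒᵖ) A)
            (ModuleCat.of (A ⊗[k] Aᵐᵒᵖ) (A ⊗[k] Aᵐᵒᵖ)) i)) ∧
       (∀ i : ℕ, 1 ≤ i →
          Subsingleton (Abelian.Ext.{1}
            (ModuleCat.of ((A ⊗[k] Aᵐᵒᵖ)ᵐᵒᵖ) (A →ₗ[A ⊗[k] Aᵐᵒᵖ] (A ⊗[k] Aᵐᵒᵖ)))
            (ModuleCat.of ((A ⊗[k] Aᵐᵒᵖ)ᵐᵒᵖ) (A ⊗[k] Aᵐᵒᵖ)) i))))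

/-- The Gorenstein bimodule conjecture (the problem) for all finite-dimensional algebras over the
field `K`. -/
def GorensteinBimoduleConjecture (K : Type) [Field K] : Prop :=
  ∀ (A : Type) [Ring A] [Algebra K A] [FiniteDimensional K A], BimoduleConjectureFor K A

/-- There is an exact sequence `0 → A → I 0 → I 1 → ...` of left `A`-modules in which every
`I n` is finitely generated, projective and injective. -/
def InfiniteDominantDimension (A : Type) [Ring A] : Prop :=
  ∃ (I : ℕ → ModuleCat.{0} A) (ε : A →ₗ[A] I 0) (d : ∀ n, I n →ₗ[A] I (n + 1)),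
    (∀ n, Module.Finite A (I n) ∧ Module.Projective A (I n) ∧ Module.Injective A (I n)) ∧
    Function.Injective ε ∧ Function.Exact ε (d 0) ∧ ∀ n, Function.Exact (d n) (d (n + 1))

/-- The Nakayama conjecture for all finite-dimensional algebras over `K`. -/
def NakayamaConjecture (K : Type) [Field K] : Prop :=
  ∀ (A : Type) [Ring A] [Algebra K A] [FiniteDimensional K A],
    InfiniteDominantDimension A → Module.Injective A A

/-- The first Tachikawa conjecture for all finite-dimensional algebras over `K`: if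
`Ext^i(D(A), A) = 0` for all `i ≥ 1` then `A` is selfinjective; here `D(A) = Hom_K(A, K)` with the
left module structure `(a • f) x = f (x * a)`. -/
def TachikawaConjectureOne (K : Type) [Field K] : Prop :=
  ∀ (A : Type) [Ring A] [Algebra K A] [FiniteDimensional K A] [Module A (A →ₗ[K] K)],
    (∀ (a : A) (f : A →ₗ[K] K) (x : A), (a • f) x = f (x * a)) →
    ExtVanish A (A →ₗ[K] K) A → Module.Injective A A

/-- The second Tachikawa conjecture for all finite-dimensional algebras over `K`: over a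
selfinjective algebra a finitely generated module without self-extensions is projective. -/
def TachikawaConjectureTwo (K : Type) [Field K] : Prop :=
  ∀ (B : Type) [Ring B] [Algebra K B] [FiniteDimensional K B], Module.Injective B B →
    ∀ (M : Type) [AddCommGroup M] [Module B M] [Module.Finite B M],
      ExtVanish B M M → Module.Projective B M

/-- The Auslander-Reiten conjecture for all finite-dimensional algebras over `K`. -/
def AuslanderReitenConjecture (K : Type) [Field K] : Prop :=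
  ∀ (B : Type) [Ring B] [Algebra K B] [FiniteDimensional K B]
    (M : Type) [AddCommGroup M] [Module B M] [Module.Finite B M],
      ExtVanish B M M → ExtVanish B M B → Module.Projective B M

theorem ev_of {A X Y : Type} [Ring A] [AddCommGroup X] [Module A X] [AddCommGroup Y]
    [Module A Y] (h : ExtVanish A X Y) : EV A X Y := fun n => h (n + 1) (by omega)

theorem of_ev {A X Y : Type} [Ring A] [AddCommGroup X] [Module A X] [AddCommGroup Y]
    [Module A Y] (h : EV A X Y) : ExtVanish A X Y := by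
  intro i hi
  obtain ⟨j, rfl⟩ : ∃ j, i = j + 1 := ⟨i - 1, by omega⟩
  exact h j

/-- Over every field `K`, the following are equivalent: the Gorenstein bimodule conjecture, the
Nakayama conjecture, the first Tachikawa conjecture, the second Tachikawa conjecture and the
Auslander-Reiten conjecture (each for all finite-dimensional `K`-algebras). -/
theorem result (K : Type) [Field K] :
    List.TFAE [GorensteinBimoduleConjecture K, NakayamaConjecture K, TachikawaConjectureOne K,
      TachikawaConjectureTwo K, AuslanderReitenConjecture K] := by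
  tfae_have 1 → 5 := fun hG B _ _ _ M _ _ _ h1 h2 =>
    arc_of_gbc (K := K) hG (ev_of h1) (ev_of h2)
  tfae_have 2 → 5 := fun hG B _ _ _ M _ _ _ h1 h2 => arc_of_nc K hG (ev_of h1) (ev_of h2)
  tfae_have 4 → 5 := fun hG B _ _ _ M _ _ _ h1 h2 =>
    arc_of_tc2 K (fun B _ _ _ hB M _ _ _ hM => hG B hB M (of_ev hM)) (ev_of h1) (ev_of h2)
  tfae_have 5 → 4 := fun hG B _ _ _ hB M _ _ _ hM =>
    hG B M hM (of_ev fun n => EX.inj hB)
  tfae_have 5 → 2 := fun hG A _ _ _ hA =>
    nc_of_arc (K := K) (fun B _ _ _ M _ _ _ h1 h2 => hG B M (of_ev h1) (of_ev h2)) A hA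
  tfae_have 5 → 3 := by
    intro hG A _ _ _ _ hs h
    let e : (A →ₗ[K] K) ≃ₗ[A] Pool.Agent.Helper426GSC.QD K A :=
      { toFun := fun f => Pool.Agent.Helper426GSC.mkQ f
        invFun := fun f => f
        left_inv := fun _ => rfl
        right_inv := fun _ => rfl
        map_add' := fun _ _ => rfl
        map_smul' := fun a f => LinearMap.ext fun x => hs a f x }
    apply tc1_of_arc (K := K) (fun M _ _ _ h1 h2 => hG A M (of_ev h1) (of_ev h2))
    intro n
    exact (ev_of h n).retrL e.symm.toLinearMap e.toLinearMap fun y => rfl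
  tfae_have 3 → 1 := by
    intro hG A _ _ _
    apply gbc_of_tc1
    intro h
    let m0 : Module A (A →ₗ[K] K) := inferInstanceAs (Module A (Pool.Agent.Helper426GSC.QD K A))
    exact hG A (fun a f x => rfl) (of_ev h)
  tfae_finish

end Pool.Agent.Results.MP_5dc868_al.NakayamaEquivalent
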