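import Pool.Agent.Run7.h692.GBC
import Pool.Agent.Run7.h692.EasyDir
import Pool.Agent.Run7.h692.GendoFinal

set_option autoImplicit false
open scoped TensorProduct
open CategoryTheory MulOpposite Run7.h692

namespace Pool.Agent.Results.MP_5dc868_al.QuantumCI

/-- The `A`-bimodule `A` is torsionless and reflexive over `A^e = A ⊗ Aᵐᵒᵖ`. -/
def ReflexiveBimodule (k A : Type) [Field k] [Ring A] [Algebra k A]
    [Module (A ⊗[k] Aᵐᵒᵖ) A] : Prop :=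
  (∀ m : A, (∀ f : A →ₗ[A ⊗[k] Aᵐᵒᵖ] (A ⊗[k] Aᵐᵒᵖ), f m = 0) → m = 0) ∧
  (∀ φ : (A →ₗ[A ⊗[k] Aᵐᵒᵖ] (A ⊗[k] Aᵐᵒᵖ)) →ₗ[((A ⊗[k] Aᵐᵒᵖ)ᵐᵒᵖ)] (A ⊗[k] Aᵐᵒᵖ),
    ∃ m : A, ∀ f : A →ₗ[A ⊗[k] Aᵐᵒᵖ] (A ⊗[k] Aᵐᵒᵖ), φ f = f m)

/-- `Ext^i(A, A^e) = 0` over `A^e`. -/
def ExtVanishes (k A : Type) [Field k] [Ring A] [Algebra k A] [Module (A ⊗[k] Aᵐᵒᵖ) A]
    [HasExt.{1} (ModuleCat.{0} (A ⊗[k] Aᵐᵒᵖ))] (i : ℕ) : Prop :=
  Subsingleton (Abelian.Ext.{1} (ModuleCat.of (A ⊗[k] Aᵐᵒᵖ) A)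
    (ModuleCat.of (A ⊗[k] Aᵐᵒᵖ) (A ⊗[k] Aᵐᵒᵖ)) i)

/-- `Ext^i(A*, A^e) = 0` over the opposite of `A^e`, where `A* = Hom(A, A^e)`. -/
def DualExtVanishes (k A : Type) [Field k] [Ring A] [Algebra k A] [Module (A ⊗[k] Aᵐᵒᵖ) A]
    [HasExt.{1} (ModuleCat.{0} ((A ⊗[k] Aᵐᵒᵖ)ᵐᵒᵖ))] (i : ℕ) : Prop :=
  Subsingleton (Abelian.Ext.{1}
    (ModuleCat.of ((A ⊗[k] Aᵐᵒᵖ)ᵐᵒᵖ) (A →ₗ[A ⊗[k] Aᵐᵒᵖ] (A ⊗[k] Aᵐᵒᵖ)))
    (ModuleCat.of ((A ⊗[k] Aᵐᵒᵖ)ᵐᵒᵖ) (A ⊗[k] Aᵐᵒᵖ)) i)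

/-- For the bimodule structure `(a ⊗ b) • x = a * x * b` on `A` the following are equivalent:
`A` is selfinjective; `A` is Gorenstein projective as a bimodule (the condition of the frozen
statement); the bimodule `A` is reflexive with `Ext^1(A*, A^e) = 0 = Ext^2(A*, A^e)`. -/
def SelfinjectiveIffGP (k A : Type) [Field k] [Ring A] [Algebra k A] : Prop :=
  ∀ [Module (A ⊗[k] Aᵐᵒᵖ) A],
    (∀ (a : A) (b : Aᵐᵒᵖ) (x : A), (a ⊗ₜ[k] b) • x = a * x * MulOpposite.unop b) →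
    ∀ [HasExt.{1} (ModuleCat.{0} (A ⊗[k] Aᵐᵒᵖ))]
      [HasExt.{1} (ModuleCat.{0} ((A ⊗[k] Aᵐᵒᵖ)ᵐᵒᵖ))],
    List.TFAE [Module.Injective A A,
      ReflexiveBimodule k A ∧ (∀ i : ℕ, 1 ≤ i → ExtVanishes k A i) ∧
        (∀ i : ℕ, 1 ≤ i → DualExtVanishes k A i),
      ReflexiveBimodule k A ∧ DualExtVanishes k A 1 ∧ DualExtVanishes k A 2]

/-- Let `B` be a quantum complete intersection over a field, with arbitrary parameters, and let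
`M` be a finitely generated `B`-module and `A = End_B(B ⊕ M)`. Then the following are equivalent:
`A` is selfinjective; `A` is Gorenstein projective as a bimodule; the bimodule `A` is reflexive
with `Ext^1(A*, A^e) = 0 = Ext^2(A*, A^e)`. -/
theorem result (K : Type) [Field K] (n : ℕ) (a : Fin n → ℕ) (q : Fin n → Fin n → K)
    (B : Type) [Ring B] [Algebra K B] (x : Fin n → B) (hB : IsQCI K a q B x)
    (M : Type) [AddCommGroup M] [Module B M] [Module K M] [IsScalarTower K B M]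
    [Module.Finite B M] (A : Type) [Ring A] [Algebra K A]
    (e : A ≃ₐ[K] Module.End B (B × M)) : SelfinjectiveIffGP K A := by
  have hfB : Module.Finite K B := hB.finite
  have hfM : Module.Finite K M := Module.Finite.trans B M
  obtain ⟨lam, hlam, -⟩ := hB.exists_form
  have hfE : Module.Finite K (Module.End B (B × M)) := finite_end
  have hfA : Module.Finite K A := Module.Finite.equiv e.symm.toLinearEquiv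
  intro _ hc _ _
  tfae_have 1 → 2 := fun hA => by
    have h := gp_of_selfinj K A hc hA
    exact ⟨⟨h.1, h.2.1⟩, h.2.2.1, h.2.2.2⟩
  tfae_have 2 → 3 := fun h => ⟨h.1, h.2.2 1 le_rfl, h.2.2 2 (by norm_num)⟩
  tfae_have 3 → 1 := by
    rintro ⟨⟨ht, hr⟩, hE1, hE2⟩
    have hconv : ∀ i : ℕ, DualExtVanishes K A i → Subsingleton (Abelian.Ext.{0}
          (ModuleCat.of ((A ⊗[K] Aᵐᵒᵖ)ᵐᵒᵖ) (A →ₗ[A ⊗[K] Aᵐᵒᵖ] (A ⊗[K] Aᵐᵒᵖ)))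
          (ModuleCat.of ((A ⊗[K] Aᵐᵒᵖ)ᵐᵒᵖ) (A ⊗[K] Aᵐᵒᵖ)) i) := by
      intro i h0
      unfold DualExtVanishes at h0
      exact (Abelian.Ext.chgUniv.{0, 1}
        (X := ModuleCat.of ((A ⊗[K] Aᵐᵒᵖ)ᵐᵒᵖ) (A →ₗ[A ⊗[K] Aᵐᵒᵖ] (A ⊗[K] Aᵐᵒᵖ)))
        (Y := ModuleCat.of ((A ⊗[K] Aᵐᵒᵖ)ᵐᵒᵖ) (A ⊗[K] Aᵐᵒᵖ)) (n := i)).symm.subsingleton
    obtain ⟨h1, h2⟩ := E1_of_refl lam hlam e hc ht hr (hconv 1 hE1) (hconv 2 hE2)
    have hproj : Module.Projective B (B × M) := projective_of_E1 hB h1 h2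
    exact injective_of_equiv e.toRingEquiv (selfinj_of_proj lam hlam hproj)
  tfae_finish

end Pool.Agent.Results.MP_5dc868_al.QuantumCI
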